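import Pool.Agent.R567.MSub.Ex8

set_option autoImplicit false

/-!
# A connected submatroid whose polytope is not a cell of any matroid subdivision

The definitions (`vec`, `polytope`, `IsFace`, `IsPolytopalComplex`, `IsCell`,
`IsMatroidSubdivision`, `Connected`) are in `Pool/Agent/R567/MSub/Basic.lean`.

The example has rank three and eight elements: `M` is the cycle matroid of `K_4` together with two
free points; in `M'` the six edges of `K_4` lie on a line, two edges of a triangle are parallel, and
there are no other dependencies. A cell across the facet of `P_{M'}` given by the line would be the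
polytope of a matroid whose restriction to the six edges is a weak image of rank three of the cycle
matroid of `K_4`, and such a matroid does not exist.
-/

namespace Pool.Agent.Results.MP_454fc7_co.NotACell

open Set Pool.Agent.R567.MSub

/-- **Not every connected submatroid polytope is a cell.** There are connected matroids `M`, `M'`
on `{0, ..., n - 1}` (`n = 8`) with `P_{M'}` properly contained in `P_M` such that no matroid
subdivision of `P_M` has `P_{M'}` as a cell. -/
theorem result : ∃ (n : ℕ) (M M' : Matroid (Fin n)), M.E = univ ∧ M'.E = univ ∧
    Connected M ∧ Connected M' ∧ polytope M' ⊂ polytope M ∧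
    ∀ C : Set (Set (Fin n → ℝ)), IsMatroidSubdivision M C → ¬ IsCell C (polytope M') := by
  refine ⟨8, MM, MP, rfl, rfl, connected_of coM, connected_of coP, ?_, not_cell⟩
  refine ⟨polytope_mono fun B => MP_le, fun hsub => ?_⟩
  have h1 : vec (S 8 11) ∈ polytope MP := hsub (vec_mem_polytope ⟨11, by decide, rfl⟩)
  obtain ⟨m, hm, hm'⟩ := isBase_of_vec_mem h1
  have h2 := S_inj8 11 (by decide) m ((by decide : ∀ m ∈ LP, m ∈ LM) m hm) hm'
  subst h2
  exact absurd hm (by decide)

end Pool.Agent.Results.MP_454fc7_co.NotACell
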